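import Mathlib
import Pool.Agent.H496.R10.Defs

/-! Operators given by elements of the Borel subgroup of `GL_{n+1}`, and their cost. -/

set_option autoImplicit false
set_option linter.unusedSectionVars false

namespace Pool.Agent.H496.R12

open MeasureTheory Matrix Set Pool.Agent.H496.R8 Pool.Agent.H496.R10
open scoped Classical

variable {R : Type*} [CommRing R] {n : ℕ} {H : Type*} [Group H] [TopologicalSpace H] [MeasurableSpace H]

/-- The operator `f ↦ ∫ c(ω) f(y x(ω)) dτ(ω)`, where `x(ω) = u(ω) t(ω)` with `u(ω)` unitriangular and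
`t(ω) = diag(a(ω))`. The coefficients `c` are integrable, also with the weight `δ(t)^{1/2}`, and the `x(ω)` are in a
compact set if `c(ω) ≠ 0`. The elements `t(ω)` commute with the elements at the places of `S`. -/
structure IsOp {Ω ι : Type*} [MeasurableSpace Ω] (E : H →* Matrix (Fin (n + 1)) (Fin (n + 1)) R) (ρ : Rˣ →* ℝ)
    (P : ι → Place R) (S : Finset ι) (τ : Measure Ω) (c : Ω → ℂ) (x t : Ω → H) (a : Ω → Fin (n + 1) → Rˣ) :
    Prop where
  int : Integrable c τ
  meas : Measurable x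
  cpt : ∃ K : Set H, IsCompact K ∧ ∀ ω, c ω ≠ 0 → x ω ∈ K
  tor : ∀ ω, c ω ≠ 0 → E (t ω) = diagonal fun i => (a ω i : R)
  tri : ∀ ω, c ω ≠ 0 → IsU (E (x ω * (t ω)⁻¹))
  away : ∀ ω, c ω ≠ 0 → ∀ p ∈ S, IsAway E (P p) (t ω)
  cost : Integrable (fun ω => ‖c ω‖ * Real.sqrt (modU ρ (a ω))) τ

/-- The cost `∫ |c| δ^{1/2} dτ`: for the convolution with a bi-`K`-invariant function `φ` with a maximal compact subgroup
`K`, this is the eigenvalue of `|φ|` in the representation induced from the trivial character, that is its norm on the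
tempered spectrum. -/
noncomputable def cost {Ω : Type*} [MeasurableSpace Ω] (ρ : Rˣ →* ℝ) (τ : Measure Ω) (c : Ω → ℂ)
    (a : Ω → Fin (n + 1) → Rˣ) : ℝ :=
  ∫ ω, ‖c ω‖ * Real.sqrt (modU ρ (a ω)) ∂τ

end Pool.Agent.H496.R12
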