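import Mathlib
import Pool.Agent.H496.R12.Defs
import Pool.Agent.H496.R11.Gen
import Pool.Agent.H496.R10.Multi

/-! Operators on generic forms on `GL_{n+1}`. -/

set_option autoImplicit false
set_option linter.unusedSectionVars false
set_option linter.unusedVariables false
set_option linter.style.haveILetI false

namespace Pool.Agent.H496.R12

open MeasureTheory Matrix Set Pool.Agent.H496.R8 Pool.Agent.H496.R10
open Pool.Agent.H496.R11 (gen_bound fub)
open scoped ComplexConjugate ENNReal Pointwise Classical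

variable {R : Type*} [CommRing R] [TopologicalSpace R] [IsTopologicalRing R] [MeasurableSpace R] [BorelSpace R]
  [SecondCountableTopology R] [T2Space R] {n : ℕ}
variable {H : Type*} [Group H] [TopologicalSpace H] [IsTopologicalGroup H] [SecondCountableTopology H] [T2Space H]
  [MeasurableSpace H] [BorelSpace H]
variable {E : H →* Matrix (Fin (n + 1)) (Fin (n + 1)) R} {ρ : Rˣ →* ℝ} {χ : AddChar R Circle} {μ : ℕ → R}
  {O : Subring R} {D : Set R} (m : Measure R) [SigmaFinite m] [IsFiniteMeasureOnCompacts m]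
  [m.IsAddLeftInvariant] [m.IsNegInvariant]
variable {vol : Measure H} [SigmaFinite vol] [IsFiniteMeasureOnCompacts vol] [vol.IsMulLeftInvariant] {κ : H → ℂ}

theorem away_mul {P : Place R} {s g : H} (hs : IsAway E P s) (hg : IsAway E P g) : IsAway E P (s * g) :=
  ⟨fun u hu => (hs.uni u hu).mul_left (hg.uni u hu), fun l => (hs.tor l).mul_left (hg.tor l)⟩

theorem bd_torus (hE : IsMatGroup E) (hρ : IsMod m ρ) (hκ : IsK κ) {g t : H} {a : Fin (n + 1) → Rˣ}
    (ht : E t = diagonal fun i => (a i : R)) :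
    R10.bd E m D vol κ (t * g) = modU ρ a * R10.bd E m D vol κ g := by
  have hkK : IsK (kk E vol κ (t * g)) := isK_kk hE hκ
  unfold R10.bd
  rw [int_torus m hE hρ ht hkK.meas]
  ring

theorem bd_nonneg (g : H) : 0 ≤ R10.bd E m D vol κ g :=
  mul_nonneg (pow_nonneg measureReal_nonneg _) (integral_nonneg fun _ => norm_nonneg _)

theorem ops {ι J : Type*} [Fintype J] [DecidableEq J] {P : ι → Place R} {M : ι → ℕ} (hP : IsPair O D)
    (hχ : Continuous χ) (hμ : ∀ i < n, IsDual O χ (μ i)) (hE : IsMatGroup E) (hρ : IsMod m ρ)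
    {Γ : Subgroup H} {N : R → ℝ} {Q : ℝ} (hL : IsLevel E O Γ N Q)
    {F : Set H} {f : J → H → ℂ} {ϑ : Γ →* Circle} (hϑ : IsNeb E Γ ϑ)
    (hf : IsForms vol Γ F ϑ f) (hκ : IsK κ) {C : Set H} (h0 : ∀ x ∉ C, κ x = 0) {Λ : J → ℂ}
    (hΛ : ∀ j x, ∫ y, f j (x * y) * κ y ∂vol = Λ j * f j x) {α : ι → J → Fin (n + 1) → ℂ}
    (S : Finset ι) (hpl : ∀ p ∈ S, IsPlace E ρ χ μ (P p)) (hH : ∀ p ∈ S, ∀ j, IsHecke E (P p) (α p j) (f j))
    (hfix : ∀ p ∈ S, ∀ p' ∈ S, p ≠ p' → ∀ x ∈ (P p').o, ((P p).ϖ : R) * x = x)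
    {Ω : Type*} [MeasurableSpace Ω] {τ : Measure Ω} [SFinite τ] {c : Ω → ℂ} {x t : Ω → H}
    {a : Ω → Fin (n + 1) → Rˣ} (hop : IsOp E ρ P S τ c x t a) {z : J → ℂ}
    (hz : ∀ j y, ∫ ω, c ω * f j (y * x ω) ∂τ = z j * f j y)
    {g : H} (hg : ∀ p ∈ S, IsAway E (P p) g)
    (hR : ∀ ω, c ω ≠ 0 → Commute g (x ω) ∧ IsRange E N Q C (t ω * g) P S M) :
    ∑ j, ‖Λ j‖ ^ 2 * ‖z j‖ ^ 2 * (∏ p ∈ S, (∏ i, max 1 ‖α p j i‖) ^ (2 * M p)) *
        ‖R8.Wh E m D χ μ (f j) g‖ ^ 2 ≤
      cost ρ τ c a ^ 2 * (((2 * (n + 1)).choose (n + 1) : ℝ) ^ S.card * R10.bd E m D vol κ g) := by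
  haveI := fin_restrict hP m
  set W : J → H → ℂ := fun j y => R8.Wh E m D χ μ (f j) y with hW
  set V : J → ℝ := fun j => ∏ p ∈ S, (∏ i, max 1 ‖α p j i‖) ^ (2 * M p) with hV
  have hV0 : ∀ j, 0 ≤ V j := fun j => Finset.prod_nonneg fun p _ => by positivity
  obtain ⟨CD, hCD, hD⟩ := hP.bdd
  have h1 : ∀ᵐ x ∂(m.restrict D), x ∈ CD := by
    filter_upwards [ae_restrict_mem hP.meas] with x hx using hD hx
  have hsK : ∀ᵐ u ∂(uMeas (m.restrict D) (n + 1)), sl E u ∈ {x : H | E x ∈ cpt CD (n + 1)} := by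
    filter_upwards [ae_cpt (ν := m.restrict D) hCD h1 (n + 1)] with u hu
    show E (sl E u) ∈ cpt CD (n + 1)
    rw [sl_val (hE.uni _ hu.2)]
    exact hu.1
  obtain ⟨K', hK', hxK⟩ := hop.cpt
  have hfub := fun j => fub (P := uMeas (m.restrict D) (n + 1)) (continuous_psi hχ μ).measurable
    (fun u => (norm_psi χ μ u).le) (measurable_sl hE) (isCompact_cptS hE hCD) hsK (hf.2.1 j) hop.int hop.meas hK' hxK
    (hz j) g
  have hinv : ∀ j o x, IsUO O (E o) → f j (o * x) = f j x := by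
    intro j o x ho
    have ho' : o ∈ Γ := hL.uni o ho
    have h1 := hf.2.2.1 j ⟨o, ho'⟩ x
    have h2 : ϑ ⟨o, ho'⟩ = 1 := by
      apply hϑ
      · intro i
        exact ho.1.1 _ _ (Fin.castSucc_lt_last i)
      · exact ho.1.2 _
    rw [h2, Circle.coe_one, one_mul] at h1
    exact h1
  set B : ℝ := ((2 * (n + 1)).choose (n + 1) : ℝ) ^ S.card * R10.bd E m D vol κ g with hB
  have hB0 : 0 ≤ B := mul_nonneg (pow_nonneg (Nat.cast_nonneg _) _) (bd_nonneg m g)
  have h2 := gen_bound (τ := τ) (a := fun j => ‖Λ j‖ ^ 2 * V j) (fun j => mul_nonneg (by positivity) (hV0 j))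
    (v := fun j ω => c ω * W j (g * x ω)) (fun j => (hfub j).1) hop.cost hB0
    (Filter.Eventually.of_forall fun ω => by positivity)
    (Filter.Eventually.of_forall fun ω => by
      by_cases hc : c ω = 0
      · simp [hc]
      · have h3 : ∀ j, ‖W j (g * x ω)‖ = ‖W j (t ω * g)‖ := by
          intro j
          have e1 : g * x ω = x ω * (t ω)⁻¹ * (t ω * g) := by
            rw [(hR ω hc).1.eq]
            group
          have e2 := Wh_uni m hP hχ hμ hE (hf.2.1 j) (hinv j) (hop.tri ω hc) (t ω * g)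
          rw [e1, hW]
          dsimp only
          rw [e2, norm_mul, norm_psi, one_mul]
        have h4 := density_all (M := M) m hP hχ hμ hE hρ hL hϑ hf hκ h0 hΛ S hpl hH hfix
          (g := t ω * g) (fun p hp => away_mul (hop.away ω hc p hp) (hg p hp)) (hR ω hc).2
        rw [bd_torus m hE hρ hκ (hop.tor ω hc)] at h4
        have h5 : ∑ j, ‖Λ j‖ ^ 2 * V j * ‖c ω * W j (g * x ω)‖ ^ 2 =
            ‖c ω‖ ^ 2 * ∑ j, ‖Λ j‖ ^ 2 * V j * ‖W j (t ω * g)‖ ^ 2 := by
          rw [Finset.mul_sum]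
          refine Finset.sum_congr rfl fun j _ => ?_
          rw [norm_mul, h3]
          ring
        rw [h5, mul_pow, Real.sq_sqrt (modU_nonneg hρ _), mul_assoc]
        refine mul_le_mul_of_nonneg_left (h4.trans (le_of_eq ?_)) (by positivity)
        rw [hB]
        ring)
  refine le_trans (le_of_eq ?_) h2
  refine Finset.sum_congr rfl fun j _ => ?_
  have h6 : ∫ ω, c ω * W j (g * x ω) ∂τ = z j * W j g := (hfub j).2
  rw [h6, norm_mul]
  ring

end Pool.Agent.H496.R12
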